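import Pool.Agent.U429.VV.Mert
import Pool.Agent.N17.HC.KOS
import Pool.Agent.N17.HC.FIN
import Pool.Agent.N17.CK.ROOT
import Pool.Agent.N17.CK.POSEND
import Pool.Agent.N17.CK.MAIN

/-!
# Smooth subvarieties: the Chern roots are integers, uniformly in the codimension
-/

set_option autoImplicit false

open Polynomial Finset

namespace Pool.Agent.U429.VV

open Pool.Agent.N17.HC Pool.Agent.N17.CK
open Pool.Agent.R920.CH (IsIntegerValued)

theorem norm_prod_le (s : Multiset ℂ) (B : ℝ) (hB0 : 0 ≤ B) (hB : ∀ y ∈ s, ‖y‖ ≤ B) :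
    ‖s.prod‖ ≤ B ^ (Multiset.card s) := by
  induction s using Multiset.induction_on with
  | empty => simp
  | cons a s ih =>
    rw [Multiset.prod_cons, Multiset.card_cons, norm_mul, pow_succ, mul_comm]
    exact mul_le_mul (ih fun y hy => hB y (Multiset.mem_cons_of_mem hy))
      (hB a (Multiset.mem_cons_self a s)) (norm_nonneg _) (by positivity)

/-- the arithmetic conditions -/
structure Cond (N r : ℕ) (P : ℤ[X]) : Prop where
  monic : P.Monic
  deg : P.natDegree = r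
  nonneg : ∀ i ≤ r, 0 ≤ chern r P i
  schur : ∀ i < r, chern r P (i + 1) ≤ chern r P 1 * chern r P i
  int1 : ∀ t : ℤ, ∃ z : ℤ, kos N (rootsOf P) (N + t) = z
  int2 : ∀ t : ℤ, ∃ z : ℤ, ((rootsOf P).map fun b => kos N (rootsOf P) (N + t - b)).sum = z

theorem split_of_roots {P : ℤ[X]} {r : ℕ} (hP : P.Monic) (hr : P.natDegree = r)
    (hpos : ∀ i ≤ r, 0 ≤ chern r P i) (h : ∀ β ∈ rootsOf P, ∃ a : ℤ, β = a) :
    ∃ a : Fin r → ℤ, (∀ i, 1 ≤ a i) ∧ P = ∏ i, (X - C (a i)) := by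
  refine t_END r P hP hr fun Q hQ hQi hQP => ?_
  have hQd : Q.natDegree ≠ 0 := by
    intro h0
    have h1 : Q = 1 := Polynomial.eq_one_of_monic_natDegree_zero hQ h0
    exact hQi.not_isUnit (by rw [h1]; exact isUnit_one)
  have hcard : 0 < Multiset.card (rootsOf Q) := by
    rw [FIN.card_rootsOf]; omega
  obtain ⟨β, hβ⟩ := Multiset.card_pos_iff_exists_mem.1 hcard
  obtain ⟨a, ha⟩ := h β (MAIN.rootsOf_sub hP hQP β hβ)
  have hroot : Q.IsRoot a := by
    have h1 := (Polynomial.mem_roots (hQ.map (Int.castRingHom ℂ)).ne_zero).1 hβ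
    rw [Polynomial.IsRoot.def, eval_map, ha] at h1
    rw [Polynomial.IsRoot.def]
    have h2 : ((Q.eval a : ℤ) : ℂ) = 0 := by
      rw [← h1]
      have := Polynomial.hom_eval₂ Q (RingHom.id ℤ) (Int.castRingHom ℂ) a
      simpa [eval₂_eq_eval_map] using this
    exact_mod_cast h2
  obtain ⟨R, hR⟩ := Polynomial.dvd_iff_isRoot.2 hroot
  have hRm : R.Monic := (Polynomial.monic_X_sub_C a).of_mul_monic_left (by rw [← hR]; exact hQ)
  have hRd : R.natDegree = 0 := by
    by_contra hne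
    exact MAIN.not_irr a R hRm hne (by rw [← hR]; exact hQi)
  have hR1 : R = 1 := Polynomial.eq_one_of_monic_natDegree_zero hRm hRd
  have hQa : Q = X - C a := by rw [hR, hR1, mul_one]
  refine ⟨a, ?_, hQa⟩
  exact (t_POS r P hP hr hpos).2 a (by rw [← hQa]; exact hQP)

/-- the finer form, with an explicit constant -/
theorem main_fine {N r : ℕ} (hN : 2 ≤ N) (hr : 1 ≤ r) {P : ℤ[X]} (h : Cond N r P) {S : ℤ}
    (hS : P.coeff (r - 1) = -S) (h1 : (r : ℝ) * Real.log N ≤ Real.exp (-15) * N)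
    (h2 : (S : ℝ) * Real.exp (2 * kap (P.coeff 0).natAbs) ≤ Real.exp (-15) * N) :
    ∃ a : Fin r → ℤ, (∀ i, 1 ≤ a i) ∧ P = ∏ i, (X - C (a i)) := by
  refine split_of_roots h.monic h.deg h.nonneg ?_
  -- the degree
  obtain ⟨hpos, -⟩ := t_POS r P h.monic h.deg h.nonneg
  set d : ℕ := (P.coeff 0).natAbs with hd
  have hd0 : 0 < d := by
    rw [hd, Int.natAbs_pos]
    rintro h0
    rw [h0] at hpos
    simp at hpos
  have hdP : (-1) ^ r * P.coeff 0 = (d : ℤ) := by
    rw [hd, Int.natCast_natAbs]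
    rcases neg_one_pow_eq_or ℤ r with h0 | h0
    · rw [h0] at hpos ⊢
      rw [abs_of_pos (by linarith)]
      ring
    · rw [h0] at hpos ⊢
      rw [abs_of_neg (by linarith)]
      ring
  -- sizes
  have hN2 : (2 : ℝ) ≤ N := by exact_mod_cast hN
  have hr1 : (1 : ℝ) ≤ r := by exact_mod_cast hr
  have hlog2 : (1 : ℝ) / 2 ≤ Real.log N := by
    have e1 := Real.log_two_gt_d9
    have e2 := Real.log_le_log (by norm_num) hN2
    linarith
  have hc : Real.exp (-15) * 3200000 ≤ 1 := by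
    have e1 : (2.7182818283 : ℝ) < Real.exp 1 := Real.exp_one_gt_d9
    have e2 : Real.exp (-15) = (Real.exp 1 ^ 15)⁻¹ := by
      rw [← Real.exp_nat_mul, ← Real.exp_neg]; norm_num
    rw [e2, inv_mul_le_iff₀ (by positivity), mul_one]
    have e3 : (2.7182818283 : ℝ) ^ 15 ≤ Real.exp 1 ^ 15 := pow_le_pow_left₀ (by norm_num) e1.le 15
    refine le_trans ?_ e3
    norm_num
  have hc0 : 0 < Real.exp (-15) := Real.exp_pos _
  set c : ℝ := Real.exp (-15) with hcdef
  have hcN : c * N * 3200000 ≤ N := by nlinarith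
  have hcN0 : 0 ≤ c * N := by positivity
  have hNbig : (1000 : ℝ) ≤ N := by
    have e1 : (1 : ℝ) / 2 ≤ r * Real.log N := by nlinarith
    nlinarith
  have hrN : (r : ℝ) ≤ N / 1000 := by
    have e1 : (r : ℝ) * (1 / 2) ≤ r * Real.log N := mul_le_mul_of_nonneg_left hlog2 (by linarith)
    linarith
  have hrN' : 1000 * r ≤ N := by
    have : (1000 : ℝ) * r ≤ N := by linarith
    exact_mod_cast this
  have hS0 : chern r P 1 = S - r := by
    rw [MAIN.chern_one r hr P h.monic h.deg, hS]; ring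
  have hS1 : (r : ℤ) ≤ S := by
    have := h.nonneg 1 hr
    rw [hS0] at this
    linarith
  have hS1' : (r : ℝ) ≤ S := by exact_mod_cast hS1
  have hSpos : (1 : ℝ) ≤ S := by linarith
  have hkap := kap_nonneg d
  have hexp1 : 1 ≤ Real.exp (2 * kap d) := Real.one_le_exp (by linarith)
  have hSN : (S : ℝ) ≤ c * N := by
    refine le_trans ?_ h2
    nlinarith
  -- the roots
  have hroots : ∀ β ∈ rootsOf P, ‖β‖ ≤ 2 * (S : ℝ) := by
    intro β hβ
    have e1 := t_ROOT r P h.monic h.deg h.nonneg h.schur β hβ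
    have e2 : ‖β‖ ≤ ‖β - 1‖ + 1 := by
      have := norm_add_le (β - 1) 1
      simpa using this
    rw [hS0] at e1
    push_cast at e1
    linarith
  -- the integrality
  set n : ℕ := N - r with hn
  set D : ℕ := N + 2 - 2 * r with hD
  have hDr : (D : ℝ) = N + 2 - 2 * r := by
    rw [hD, Nat.cast_sub (by omega)]; push_cast; ring
  have hprod : (rootsOf P).prod = ((d : ℤ) : ℂ) := by
    rw [FIN.prod_rootsOf P h.monic, h.deg, hdP]
  have hint : ∀ f : ℚ[X], IsIntegerValued f → f.natDegree ≤ n →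
      ∃ z : ℤ, (((d : ℤ) ^ (N + 1) : ℤ) : ℂ) * ((rootsOf P).map fun b => aeval b f).sum = z := by
    refine LSP.all n (rootsOf P) ((d : ℤ) ^ (N + 1)) ?_
    intro k hk
    obtain ⟨z, hz⟩ := t_KOS N (rootsOf P) (d : ℤ) hprod h.int1 h.int2 k
      (by rw [FIN.card_rootsOf, h.deg]; omega)
    refine ⟨(d : ℤ) ^ (N - k) * z, ?_⟩
    have e : N + 1 = N - k + (k + 1) := by omega
    rw [e]
    push_cast
    push_cast at hz
    rw [← hz, ← mul_assoc, ← pow_add]
  refine roots_int_of n r D d (N + 1) P h.monic h.deg hd0 (by omega) hint (2 * S) (by linarith)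
    hroots (by omega) ?_ ?_
  · -- the main inequality
    have e1 : Real.exp (10 + 2 * kap d) = Real.exp 10 * Real.exp (2 * kap d) := Real.exp_add _ _
    have e2 : 16 * (2 * (S : ℝ)) * Real.exp (10 + 2 * kap d) ≤ 32 * Real.exp 10 * (c * N) := by
      rw [e1]
      have := mul_le_mul_of_nonneg_left h2 (show (0 : ℝ) ≤ 32 * Real.exp 10 by positivity)
      nlinarith
    have e3 : Real.exp 10 * c * 64 ≤ 1 := by
      rw [hcdef, ← Real.exp_add]
      have e4 : Real.exp (10 + -15) = (Real.exp 1 ^ 5)⁻¹ := by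
        rw [← Real.exp_nat_mul, ← Real.exp_neg]; norm_num
      rw [e4, inv_mul_le_iff₀ (by positivity), mul_one]
      have e5 : (2.7182818283 : ℝ) < Real.exp 1 := Real.exp_one_gt_d9
      have e6 : (2.7182818283 : ℝ) ^ 5 ≤ Real.exp 1 ^ 5 :=
        pow_le_pow_left₀ (by norm_num) e5.le 5
      refine le_trans ?_ e6
      norm_num
    have e7 : 32 * Real.exp 10 * (c * N) ≤ N / 2 := by nlinarith
    rw [hDr]
    linarith
  · -- the small value
    have hD1 : (N : ℝ) / 2 ≤ D := by rw [hDr]; linarith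
    have hD2 : (D : ℝ) ≤ N := by rw [hDr]; linarith
    have hD0 : (0 : ℝ) < D := by linarith
    have hN0 : (0 : ℝ) < N := by linarith
    have hBN : 2 * (S : ℝ) ≤ N := by linarith
    have e1 : (2 * (S : ℝ)) ^ r ≤ (N : ℝ) ^ r := pow_le_pow_left₀ (by linarith) hBN r
    have e2 : (r : ℝ) * (D * Real.exp (-((D : ℝ) - 1)) * (2 * (S : ℝ)) ^ r) ≤
        N * (N * Real.exp (-((N : ℝ) / 2 - 1)) * (N : ℝ) ^ r) := by
      have f1 : Real.exp (-((D : ℝ) - 1)) ≤ Real.exp (-((N : ℝ) / 2 - 1)) :=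
        Real.exp_le_exp.2 (by linarith)
      have f2 : (r : ℝ) ≤ N := by linarith
      have f3 : (0 : ℝ) ≤ 2 * (S : ℝ) := by linarith
      gcongr
    have e3 : (N : ℝ) * (N * Real.exp (-((N : ℝ) / 2 - 1)) * (N : ℝ) ^ r) =
        Real.exp (2 * Real.log N + r * Real.log N - ((N : ℝ) / 2 - 1)) := by
      have g1 : (N : ℝ) = Real.exp (Real.log N) := (Real.exp_log hN0).symm
      have g2 : (N : ℝ) ^ r = Real.exp (r * Real.log N) := by
        rw [Real.exp_nat_mul, Real.exp_log hN0]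
      rw [g2]
      have g3 : (N : ℝ) * (N * Real.exp (-((N : ℝ) / 2 - 1)) * Real.exp (r * Real.log N)) =
          (N * N) * (Real.exp (-((N : ℝ) / 2 - 1)) * Real.exp (r * Real.log N)) := by ring
      have g4 : (N : ℝ) * N = Real.exp (2 * Real.log N) := by
        rw [two_mul, Real.exp_add, Real.exp_log hN0]
      rw [g3, g4, ← Real.exp_add, ← Real.exp_add]
      congr 1
      ring
    refine e2.trans_lt ?_
    rw [e3, Real.exp_lt_one_iff]
    have e4 : Real.log N ≤ r * Real.log N := by nlinarith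
    linarith

/-- the form with logarithms -/
theorem main_log : ∃ c : ℝ, 0 < c ∧ ∀ (N r : ℕ), 2 ≤ N → 1 ≤ r → ∀ P : ℤ[X], Cond N r P →
    ∀ S : ℤ, P.coeff (r - 1) = -S → (S : ℝ) * (r * Real.log N) ^ 2 ≤ c * N →
    ∃ a : Fin r → ℤ, (∀ i, 1 ≤ a i) ∧ P = ∏ i, (X - C (a i)) := by
  obtain ⟨C, hC0, hC⟩ := kap_le
  have hc0 : 0 < Real.exp (-15) := Real.exp_pos _
  refine ⟨Real.exp (-15) / (9 * C ^ 2 + 4), by positivity, ?_⟩
  intro N r hN hr P h S hS hle
  set c : ℝ := Real.exp (-15) with hcdef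
  have hN2 : (2 : ℝ) ≤ N := by exact_mod_cast hN
  have hr1 : (1 : ℝ) ≤ r := by exact_mod_cast hr
  have hlog2 : (1 : ℝ) / 2 ≤ Real.log N := by
    have e1 := Real.log_two_gt_d9
    have e2 := Real.log_le_log (by norm_num) hN2
    linarith
  set L : ℝ := r * Real.log N with hL
  have hL2 : 1 / 2 ≤ L := by nlinarith
  have hS0 : chern r P 1 = S - r := by
    rw [MAIN.chern_one r hr P h.monic h.deg, hS]; ring
  have hS1 : (r : ℤ) ≤ S := by
    have := h.nonneg 1 hr
    rw [hS0] at this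
    linarith
  have hS1' : (r : ℝ) ≤ S := by exact_mod_cast hS1
  have hSpos : (1 : ℝ) ≤ S := by linarith
  have hK : 0 < 9 * C ^ 2 + 4 := by positivity
  have hle' : (S : ℝ) * L ^ 2 * (9 * C ^ 2 + 4) ≤ c * N := by
    have := mul_le_mul_of_nonneg_right hle hK.le
    rw [div_mul_eq_mul_div, div_mul_cancel₀ _ hK.ne'] at this
    exact this
  have hSL : 0 ≤ (S : ℝ) * L ^ 2 := by positivity
  have h4 : (S : ℝ) * L ^ 2 * 4 ≤ c * N := by nlinarith [mul_nonneg hSL (sq_nonneg C)]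
  have hcN : c ≤ 1 := by rw [hcdef, Real.exp_le_one_iff]; norm_num
  have hL4 : 1 ≤ 4 * L ^ 2 := by nlinarith
  have hSN : (S : ℝ) ≤ c * N := by
    have := mul_le_mul_of_nonneg_left hL4 (show (0 : ℝ) ≤ S by linarith)
    linarith
  have hc2 : c * 2 ≤ 1 := by
    have e1 : Real.exp (-15) ≤ Real.exp (-1) := Real.exp_le_exp.2 (by norm_num)
    have e2 := Real.exp_neg_one_lt_d9
    rw [hcdef]
    linarith
  have h2SN : 2 * (S : ℝ) ≤ N := by nlinarith
  -- the degree
  obtain ⟨hpos, -⟩ := t_POS r P h.monic h.deg h.nonneg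
  have hd0 : 0 < (P.coeff 0).natAbs := by
    rw [Int.natAbs_pos]
    rintro h0
    rw [h0] at hpos
    simp at hpos
  have hdle : ((P.coeff 0).natAbs : ℝ) ≤ (N : ℝ) ^ r := by
    have e1 : (((P.coeff 0).natAbs : ℕ) : ℝ) = ‖(rootsOf P).prod‖ := by
      rw [FIN.prod_rootsOf P h.monic, Complex.norm_intCast, Nat.cast_natAbs]
      push_cast
      rw [abs_mul, abs_pow, abs_neg, abs_one, one_pow, one_mul]
    rw [e1]
    have e2 := norm_prod_le (rootsOf P) (2 * S) (by linarith) (by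
      intro β hβ
      have e1 := t_ROOT r P h.monic h.deg h.nonneg h.schur β hβ
      have e2 : ‖β‖ ≤ ‖β - 1‖ + 1 := by
        have := norm_add_le (β - 1) 1
        simpa using this
      rw [hS0] at e1
      push_cast at e1
      linarith)
    rw [FIN.card_rootsOf, h.deg] at e2
    exact e2.trans (pow_le_pow_left₀ (by linarith) h2SN r)
  have hlogd : Real.log ((P.coeff 0).natAbs : ℝ) ≤ L := by
    have e1 : (0 : ℝ) < ((P.coeff 0).natAbs : ℝ) := by exact_mod_cast hd0
    have := Real.log_le_log e1 hdle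
    rwa [Real.log_pow] at this
  have hkap : Real.exp (kap (P.coeff 0).natAbs) ≤ C * (3 * L) := by
    refine (hC _ hd0).trans ?_
    refine mul_le_mul_of_nonneg_left ?_ hC0.le
    linarith
  have hkap2 : Real.exp (2 * kap (P.coeff 0).natAbs) ≤ 9 * C ^ 2 * L ^ 2 := by
    have e1 : Real.exp (2 * kap (P.coeff 0).natAbs) =
        Real.exp (kap (P.coeff 0).natAbs) ^ 2 := by
      rw [← Real.exp_nat_mul]; norm_num
    rw [e1]
    calc Real.exp (kap (P.coeff 0).natAbs) ^ 2 ≤ (C * (3 * L)) ^ 2 :=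
          pow_le_pow_left₀ (Real.exp_pos _).le hkap 2
      _ = 9 * C ^ 2 * L ^ 2 := by ring
  refine main_fine hN hr h hS ?_ ?_
  · have e1 : L ≤ 2 * L ^ 2 := by nlinarith
    have e2 : L ^ 2 ≤ (S : ℝ) * L ^ 2 := by nlinarith [sq_nonneg L]
    change L ≤ c * N
    linarith
  · calc (S : ℝ) * Real.exp (2 * kap (P.coeff 0).natAbs) ≤ S * (9 * C ^ 2 * L ^ 2) :=
        mul_le_mul_of_nonneg_left hkap2 (by linarith)
      _ = (S : ℝ) * L ^ 2 * (9 * C ^ 2) := by ring
      _ ≤ c * N := by nlinarith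

end Pool.Agent.U429.VV
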