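import Pool.Agent.U429.VV.Zero

/-!
# The prime-to-`d` part of the superfactorial, choice of the parameters
-/

set_option autoImplicit false

open Polynomial Finset

namespace Pool.Agent.U429.VV

open Pool.Agent.N17.HC
open Pool.Agent.R920.CH (IsIntegerValued)

/-- `Σ_{p ∣ d} log p / (p - 1)` -/
noncomputable def kap (d : ℕ) : ℝ := ∑ p ∈ d.primeFactors, Real.log p / (p - 1)

/-- the prime-to-`d` part of `k!` -/
noncomputable def cop (d k : ℕ) : ℕ :=
  ∏ p ∈ (range (k + 1)).filter (fun p => p.Prime ∧ ¬ p ∣ d), p ^ (k.factorial.factorization p)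

/-- the other part of `k!` -/
noncomputable def smo (d k : ℕ) : ℕ :=
  ∏ p ∈ (range (k + 1)).filter (fun p => p.Prime ∧ p ∣ d), p ^ (k.factorial.factorization p)

theorem cop_mul_smo (d k : ℕ) : cop d k * smo d k = k.factorial := by
  classical
  have h1 : k.factorial = ∏ p ∈ (range (k + 1)).filter Nat.Prime,
      p ^ (k.factorial.factorization p) := by
    conv_lhs => rw [← Nat.prod_factorization_pow_eq_self (Nat.factorial_ne_zero k)]
    rw [Finsupp.prod]
    refine Finset.prod_subset ?_ ?_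
    · intro p hp
      rw [Nat.support_factorization, Nat.mem_primeFactors] at hp
      rw [mem_filter, mem_range]
      exact ⟨Nat.lt_succ_of_le ((hp.1.dvd_factorial).1 hp.2.1), hp.1⟩
    · intro p _ hp
      rw [Finsupp.notMem_support_iff] at hp
      rw [hp, pow_zero]
  have h2 := Finset.prod_filter_mul_prod_filter_not ((range (k + 1)).filter Nat.Prime)
    (fun p => ¬ p ∣ d) (fun p => p ^ (k.factorial.factorization p))
  rw [filter_filter, filter_filter] at h2
  simp only [not_not] at h2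
  rw [cop, smo, h2, ← h1]

theorem cop_pos (d k : ℕ) : 0 < cop d k :=
  Finset.prod_pos fun p hp => pow_pos (mem_filter.1 hp).2.1.pos _

theorem smo_pos (d k : ℕ) : 0 < smo d k :=
  Finset.prod_pos fun p hp => pow_pos (mem_filter.1 hp).2.1.pos _

theorem cop_coprime (d k : ℕ) : Nat.Coprime (cop d k) d := by
  refine Nat.Coprime.prod_left fun p hp => ?_
  rw [mem_filter] at hp
  exact Nat.Coprime.pow_left _ ((hp.2.1.coprime_iff_not_dvd).2 hp.2.2)

theorem cop_dvd {d k D : ℕ} (h : k ≤ D) : cop d k ∣ cop d D := by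
  classical
  have h1 : cop d k ∣ ∏ p ∈ (range (k + 1)).filter (fun p => p.Prime ∧ ¬ p ∣ d),
      p ^ (D.factorial.factorization p) := by
    refine Finset.prod_dvd_prod_of_dvd _ _ fun p hp => pow_dvd_pow _ ?_
    exact (Nat.factorization_le_iff_dvd (Nat.factorial_ne_zero k)
      (Nat.factorial_ne_zero D)).2 (Nat.factorial_dvd_factorial h) p
  refine h1.trans (Finset.prod_dvd_prod_of_subset _ _ _ ?_)
  intro p hp
  rw [mem_filter, mem_range] at hp ⊢
  exact ⟨by omega, hp.2⟩

theorem kap_nonneg (d : ℕ) : 0 ≤ kap d := by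
  refine Finset.sum_nonneg fun p hp => ?_
  have h1 : 1 ≤ (p : ℝ) := by exact_mod_cast (Nat.prime_of_mem_primeFactors hp).one_lt.le
  exact div_nonneg (Real.log_nonneg h1) (by linarith)

theorem smo_le {d : ℕ} (hd : 0 < d) (k : ℕ) : (smo d k : ℝ) ≤ Real.exp (kap d * k) := by
  classical
  have h1 : (smo d k : ℝ) = ∏ p ∈ (range (k + 1)).filter (fun p => p.Prime ∧ p ∣ d),
      (p : ℝ) ^ (k.factorial.factorization p) := by
    rw [smo]; push_cast; rfl
  have h2 : ∀ p ∈ (range (k + 1)).filter (fun p => p.Prime ∧ p ∣ d),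
      (p : ℝ) ^ (k.factorial.factorization p) ≤ Real.exp (Real.log p / (p - 1) * k) := by
    intro p hp
    rw [mem_filter] at hp
    have hpp := hp.2.1
    have : Fact p.Prime := ⟨hpp⟩
    have h3 := sub_one_mul_padicValNat_factorial (p := p) k
    have h4 : k.factorial.factorization p = padicValNat p k.factorial :=
      Nat.factorization_def _ hpp
    have h5 : (p - 1) * k.factorial.factorization p ≤ k := by
      rw [h4, h3]; omega
    have hp1 : (1 : ℝ) < p := by exact_mod_cast hpp.one_lt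
    have h6 : ((p : ℝ) - 1) * (k.factorial.factorization p : ℝ) ≤ k := by
      have : (((p - 1 : ℕ) : ℝ)) * (k.factorial.factorization p : ℝ) ≤ k := by exact_mod_cast h5
      rwa [Nat.cast_sub hpp.one_lt.le, Nat.cast_one] at this
    have hp0 : (0 : ℝ) < p := by linarith
    calc (p : ℝ) ^ (k.factorial.factorization p) =
          Real.exp (Real.log p * (k.factorial.factorization p : ℝ)) := by
          rw [Real.exp_mul, Real.exp_log hp0, Real.rpow_natCast]
      _ ≤ _ := by
          apply Real.exp_le_exp.2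
          rw [div_mul_eq_mul_div, le_div_iff₀ (by linarith)]
          have h7 : 0 ≤ Real.log p := Real.log_nonneg hp1.le
          nlinarith [mul_le_mul_of_nonneg_left h6 h7]
  rw [h1]
  refine (Finset.prod_le_prod (fun p _ => by positivity) h2).trans ?_
  rw [← Real.exp_sum]
  apply Real.exp_le_exp.2
  rw [kap, Finset.sum_mul]
  refine Finset.sum_le_sum_of_subset_of_nonneg ?_ ?_
  · intro p hp
    rw [mem_filter] at hp
    exact Nat.mem_primeFactors.2 ⟨hp.2.1, hp.2.2, hd.ne'⟩
  · intro p hp _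
    have h1 : 1 ≤ (p : ℝ) := by exact_mod_cast (Nat.prime_of_mem_primeFactors hp).one_lt.le
    exact mul_nonneg (div_nonneg (Real.log_nonneg h1) (by linarith)) (Nat.cast_nonneg _)

theorem cop_ge {d : ℕ} (hd : 0 < d) (k : ℕ) :
    (k.factorial : ℝ) * Real.exp (-kap d * k) ≤ cop d k := by
  have h1 : (cop d k : ℝ) * smo d k = k.factorial := by exact_mod_cast cop_mul_smo d k
  have h2 := smo_le hd k
  have h3 : (0 : ℝ) < cop d k := by exact_mod_cast cop_pos d k
  rw [← h1, neg_mul, Real.exp_neg, ← div_eq_mul_inv, div_le_iff₀ (Real.exp_pos _)]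
  exact mul_le_mul_of_nonneg_left h2 h3.le

/-- a lower bound for the superfactorial -/
theorem superfactorial_ge (D : ℕ) (hD : 0 < D) :
    ∏ j ∈ range D, ((D : ℝ) / Real.exp 3) ^ j ≤ ∏ k ∈ range D, (k.factorial : ℝ) := by
  induction D with
  | zero => omega
  | succ D ih =>
    rcases Nat.eq_zero_or_pos D with h0 | h0
    · subst h0
      simp
    have hD0 : (0 : ℝ) < D := by exact_mod_cast h0
    rw [prod_range_succ, prod_range_succ]
    have h1 : ∏ j ∈ range D, (((D + 1 : ℕ) : ℝ) / Real.exp 3) ^ j ≤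
        (∏ j ∈ range D, ((D : ℝ) / Real.exp 3) ^ j) * Real.exp D := by
      have h2 : ∀ j ∈ range D, (((D + 1 : ℕ) : ℝ) / Real.exp 3) ^ j ≤
          ((D : ℝ) / Real.exp 3) ^ j * Real.exp 1 := by
        intro j hj
        rw [mem_range] at hj
        have h3 : ((D + 1 : ℕ) : ℝ) ≤ D * Real.exp (1 / D) := by
          have := Real.add_one_le_exp (1 / (D : ℝ))
          push_cast
          calc (D : ℝ) + 1 = D * (1 / D + 1) := by field_simp; ring
            _ ≤ _ := mul_le_mul_of_nonneg_left this hD0.le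
        calc (((D + 1 : ℕ) : ℝ) / Real.exp 3) ^ j ≤ (D * Real.exp (1 / D) / Real.exp 3) ^ j := by
              refine pow_le_pow_left₀ (by positivity) ?_ _
              exact div_le_div_of_nonneg_right h3 (Real.exp_pos _).le
          _ = ((D : ℝ) / Real.exp 3) ^ j * Real.exp (1 / D) ^ j := by
              rw [← mul_pow]; congr 1; ring
          _ ≤ _ := by
              refine mul_le_mul_of_nonneg_left ?_ (by positivity)
              rw [← Real.exp_nat_mul]
              apply Real.exp_le_exp.2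
              rw [mul_one_div, div_le_one hD0]
              exact_mod_cast hj.le
      refine (Finset.prod_le_prod (fun j _ => by positivity) h2).trans (le_of_eq ?_)
      rw [Finset.prod_mul_distrib, Finset.prod_const, card_range, ← Real.exp_nat_mul, mul_one]
    have h4 : Real.exp D * (((D + 1 : ℕ) : ℝ) / Real.exp 3) ^ D ≤ D.factorial := by
      have h5 : ((D : ℝ)) ^ D / Real.exp D ≤ D.factorial := by
        have := Real.pow_div_factorial_le_exp (D : ℝ) hD0.le D
        have hf : (0 : ℝ) < D.factorial := by exact_mod_cast D.factorial_pos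
        rw [div_le_iff₀ hf] at this
        rw [div_le_iff₀ (Real.exp_pos _)]
        linarith
      have h6 : (((D + 1 : ℕ) : ℝ)) ^ D ≤ (D : ℝ) ^ D * Real.exp 1 := by
        have h3 : ((D + 1 : ℕ) : ℝ) ≤ D * Real.exp (1 / D) := by
          have := Real.add_one_le_exp (1 / (D : ℝ))
          push_cast
          calc (D : ℝ) + 1 = D * (1 / D + 1) := by field_simp; ring
            _ ≤ _ := mul_le_mul_of_nonneg_left this hD0.le
        refine (pow_le_pow_left₀ (by positivity) h3 D).trans (le_of_eq ?_)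
        rw [mul_pow, ← Real.exp_nat_mul]
        congr 2
        field_simp
      refine le_trans ?_ h5
      rw [div_pow, le_div_iff₀ (Real.exp_pos _)]
      have h7 : Real.exp 3 ^ D = Real.exp (3 * D) := by
        rw [← Real.exp_nat_mul]; congr 1; ring
      rw [h7]
      have h8 : Real.exp D * (((D + 1 : ℕ) : ℝ) ^ D / Real.exp (3 * D)) * Real.exp D ≤
          Real.exp D * ((D : ℝ) ^ D * Real.exp 1 / Real.exp (3 * D)) * Real.exp D := by
        gcongr
      refine h8.trans ?_
      have h9 : Real.exp D * ((D : ℝ) ^ D * Real.exp 1 / Real.exp (3 * D)) * Real.exp D =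
          (D : ℝ) ^ D * Real.exp (1 - D) := by
        rw [div_eq_mul_inv, ← Real.exp_neg]
        have : Real.exp D * ((D : ℝ) ^ D * Real.exp 1 * Real.exp (-(3 * D))) * Real.exp D =
            (D : ℝ) ^ D * (Real.exp D * Real.exp 1 * Real.exp (-(3 * D)) * Real.exp D) := by ring
        rw [this, ← Real.exp_add, ← Real.exp_add, ← Real.exp_add]
        congr 2
        ring
      rw [h9]
      have h10 : Real.exp (1 - (D : ℝ)) ≤ 1 := by
        rw [Real.exp_le_one_iff]
        have : (1 : ℝ) ≤ D := by exact_mod_cast h0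
        linarith
      calc (D : ℝ) ^ D * Real.exp (1 - D) ≤ (D : ℝ) ^ D * 1 :=
            mul_le_mul_of_nonneg_left h10 (by positivity)
        _ = _ := mul_one _
    calc (∏ j ∈ range D, (((D + 1 : ℕ) : ℝ) / Real.exp 3) ^ j) *
          (((D + 1 : ℕ) : ℝ) / Real.exp 3) ^ D
        ≤ ((∏ j ∈ range D, ((D : ℝ) / Real.exp 3) ^ j) * Real.exp D) *
          (((D + 1 : ℕ) : ℝ) / Real.exp 3) ^ D :=
          mul_le_mul_of_nonneg_right h1 (by positivity)
      _ = (∏ j ∈ range D, ((D : ℝ) / Real.exp 3) ^ j) *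
          (Real.exp D * (((D + 1 : ℕ) : ℝ) / Real.exp 3) ^ D) := by ring
      _ ≤ (∏ k ∈ range D, (k.factorial : ℝ)) * D.factorial :=
          mul_le_mul (ih h0) h4 (by positivity) (Finset.prod_nonneg fun _ _ => by positivity)

/-- the inequality of the pigeonhole principle -/
theorem pigeon_ineq (d D : ℕ) (hd : 0 < d) (hD : 0 < D) :
    ∏ k ∈ range D, ((cop d D / Nat.gcd (cop d D) k.factorial : ℕ) : ℝ) ≤
      ∏ j ∈ range D, ((cop d D : ℝ) * Real.exp (-((D : ℝ) - 1)) /
        (D * Real.exp (-(5 + kap d))) ^ j) := by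
  have hM : (0 : ℝ) < cop d D := by exact_mod_cast cop_pos d D
  have hD0 : (0 : ℝ) < D := by exact_mod_cast hD
  have h1 : ∀ k ∈ range D, ((cop d D / Nat.gcd (cop d D) k.factorial : ℕ) : ℝ) ≤
      (cop d D : ℝ) / (k.factorial * Real.exp (-kap d * k)) := by
    intro k hk
    rw [mem_range] at hk
    have h2 : cop d k ∣ Nat.gcd (cop d D) k.factorial :=
      Nat.dvd_gcd (cop_dvd hk.le) ⟨smo d k, (cop_mul_smo d k).symm⟩
    have h3 : cop d k ≤ Nat.gcd (cop d D) k.factorial :=
      Nat.le_of_dvd (Nat.gcd_pos_of_pos_left _ (cop_pos d D)) h2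
    have h4 : (0 : ℝ) < k.factorial * Real.exp (-kap d * k) := by
      have : (0 : ℝ) < k.factorial := by exact_mod_cast k.factorial_pos
      positivity
    refine Nat.cast_div_le.trans ?_
    refine div_le_div_of_nonneg_left hM.le h4 ((cop_ge hd k).trans ?_)
    exact_mod_cast h3
  refine (Finset.prod_le_prod (fun k _ => Nat.cast_nonneg _) h1).trans ?_
  rw [Finset.prod_div_distrib, Finset.prod_div_distrib, Finset.prod_const, Finset.prod_const,
    card_range, mul_pow]
  have hA : 0 < ∏ k ∈ range D, ((k.factorial : ℝ) * Real.exp (-kap d * k)) :=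
    Finset.prod_pos fun k _ => by
      have : (0 : ℝ) < k.factorial := by exact_mod_cast k.factorial_pos
      positivity
  have hB : 0 < ∏ j ∈ range D, ((D : ℝ) * Real.exp (-(5 + kap d))) ^ j :=
    Finset.prod_pos fun k _ => by positivity
  rw [div_le_div_iff₀ hA hB, mul_assoc]
  refine mul_le_mul_of_nonneg_left ?_ (by positivity)
  have h5 : ∀ j ∈ range D, ((D : ℝ) * Real.exp (-(5 + kap d))) ^ j =
      ((D : ℝ) / Real.exp 3) ^ j * (Real.exp (-kap d * j) * Real.exp (-2 * j)) := by
    intro j _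
    have h6 : (D : ℝ) * Real.exp (-(5 + kap d)) =
        (D : ℝ) / Real.exp 3 * (Real.exp (-kap d) * Real.exp (-2)) := by
      rw [div_eq_mul_inv, ← Real.exp_neg, ← Real.exp_add, mul_assoc, ← Real.exp_add]
      congr 2
      ring
    rw [h6, mul_pow, mul_pow, ← Real.exp_nat_mul, ← Real.exp_nat_mul]
    congr 3 <;> ring
  rw [Finset.prod_congr rfl h5, Finset.prod_mul_distrib, Finset.prod_mul_distrib,
    Finset.prod_mul_distrib]
  have h7 : ∏ j ∈ range D, Real.exp (-2 * (j : ℝ)) = Real.exp (-((D : ℝ) - 1)) ^ D := by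
    rw [← Real.exp_sum, ← Real.exp_nat_mul]
    congr 1
    rw [← Finset.mul_sum]
    have h8 : (∑ i ∈ range D, (i : ℝ)) * 2 = D * (D - 1) := by
      have := Finset.sum_range_id_mul_two D
      have h9 : ((∑ i ∈ range D, i : ℕ) : ℝ) * 2 = (D : ℝ) * ((D - 1 : ℕ) : ℝ) := by
        exact_mod_cast this
      rw [Nat.cast_sub hD] at h9
      push_cast at h9
      exact h9
    linarith
  rw [h7]
  have h9 := superfactorial_ge D hD
  have hE : 0 ≤ ∏ j ∈ range D, Real.exp (-kap d * (j : ℝ)) :=
    Finset.prod_nonneg fun _ _ => (Real.exp_pos _).le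
  calc (∏ j ∈ range D, ((D : ℝ) / Real.exp 3) ^ j) *
        ((∏ j ∈ range D, Real.exp (-kap d * (j : ℝ))) * Real.exp (-((D : ℝ) - 1)) ^ D)
      ≤ (∏ k ∈ range D, (k.factorial : ℝ)) *
        ((∏ j ∈ range D, Real.exp (-kap d * (j : ℝ))) * Real.exp (-((D : ℝ) - 1)) ^ D) :=
        mul_le_mul_of_nonneg_right h9 (by positivity)
    _ = _ := by ring

/-- **The criterion.** -/
theorem roots_int_of (n r D d s : ℕ) (P : ℤ[X]) (hP : P.Monic) (hr : P.natDegree = r)
    (hd : 0 < d) (hD : 0 < D)
    (hint : ∀ f : ℚ[X], IsIntegerValued f → f.natDegree ≤ n →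
      ∃ z : ℤ, (((d : ℤ) ^ s : ℤ) : ℂ) * ((rootsOf P).map fun b => aeval b f).sum = z)
    (B : ℝ) (hB : 1 ≤ B) (hroots : ∀ β ∈ rootsOf P, ‖β‖ ≤ B) (hDn : D + r ≤ n + 2)
    (h1 : 16 * B * Real.exp (10 + 2 * kap d) ≤ D)
    (h2 : r * (D * Real.exp (-((D : ℝ) - 1)) * B ^ r) < 1) :
    ∀ β ∈ rootsOf P, ∃ a : ℤ, β = a := by
  have hD0 : (0 : ℝ) < D := by exact_mod_cast hD
  set R : ℝ := D * Real.exp (-(5 + kap d)) with hR
  have hR0 : 0 < R := by positivity
  obtain ⟨H, hH0, hHD, hHco, hHdiv⟩ := pigeon D (cop d D) (cop_pos d D) hD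
    (Real.exp (-((D : ℝ) - 1))) R hR0 (Real.exp_pos _) (pigeon_ineq d D hd hD)
  have hcM : IsCoprime ((cop d D : ℕ) : ℤ) ((d : ℤ) ^ s) :=
    IsCoprime.pow_right (Nat.isCoprime_iff_coprime.2 (cop_coprime d D))
  have hk := kap_nonneg d
  have hRR : 16 * B * D ≤ R ^ 2 := by
    rw [hR, mul_pow, ← Real.exp_nat_mul]
    have e1 : Real.exp (((2 : ℕ) : ℝ) * (-(5 + kap d))) = (Real.exp (10 + 2 * kap d))⁻¹ := by
      rw [← Real.exp_neg]
      congr 1
      push_cast
      ring
    rw [e1, ← div_eq_mul_inv, le_div_iff₀ (Real.exp_pos _)]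
    nlinarith
  have hR2 : 4 * B ≤ R := by
    have e1 : R ≤ D := by
      rw [hR]
      have : Real.exp (-(5 + kap d)) ≤ 1 := by
        rw [Real.exp_le_one_iff]; linarith
      nlinarith
    have e3 : 16 * B * R ≤ R * R := by nlinarith
    have e4 : 16 * B ≤ R := le_of_mul_le_mul_right e3 hR0
    linarith
  set A₀ : ℕ := ⌊R / (2 * B)⌋₊ with hA₀
  set B₀ : ℕ := ⌊R / 2⌋₊ with hB₀
  have hB0 : 0 < B := by linarith
  have a1 : (A₀ : ℝ) ≤ R / (2 * B) := Nat.floor_le (by positivity)
  have b1 : (B₀ : ℝ) ≤ R / 2 := Nat.floor_le (by positivity)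
  have a2 : R / (4 * B) ≤ A₀ := by
    have e1 := Nat.lt_floor_add_one (R / (2 * B))
    have e2 : 1 ≤ R / (4 * B) := by rw [le_div_iff₀ (by positivity)]; linarith
    have e3 : R / (2 * B) = R / (4 * B) + R / (4 * B) := by field_simp; ring
    rw [← hA₀] at e1
    linarith
  have b2 : R / 4 ≤ B₀ := by
    have e1 := Nat.lt_floor_add_one (R / 2)
    rw [← hB₀] at e1
    linarith
  refine integral_roots n r D (cop d D) P hP hr ((d : ℤ) ^ s) (cop_pos d D) hcM hint B R
    (Real.exp (-((D : ℝ) - 1))) hB hroots hDn H hH0 hHD hR0 hHco hHdiv h2 A₀ B₀ ?_ ?_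
  · have : (A₀ : ℝ) * B ≤ R / 2 := by
      calc (A₀ : ℝ) * B ≤ R / (2 * B) * B := mul_le_mul_of_nonneg_right a1 hB0.le
        _ = R / 2 := by field_simp
    linarith
  · have e1 : (D : ℝ) ≤ A₀ * B₀ := by
      calc (D : ℝ) ≤ R / (4 * B) * (R / 4) := by
            rw [div_mul_div_comm, le_div_iff₀ (by positivity)]
            nlinarith
        _ ≤ A₀ * B₀ := mul_le_mul a2 b2 (by positivity) (Nat.cast_nonneg _)
    exact_mod_cast e1

end Pool.Agent.U429.VV
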