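import Pool.Agent.Helper256.KM.Mertens
import Pool.Agent.U429.VV.Est

/-!
# The product `∏_{p ∣ d} p ^ (1 / (p - 1))` is at most `C (1 + log d)`
-/

set_option autoImplicit false

open Finset

namespace Pool.Agent.U429.VV

theorem mertens' : ∃ C : ℝ, 0 ≤ C ∧ ∀ N : ℕ, 1 ≤ N →
    ∑ p ∈ (Icc 1 N).filter Nat.Prime, Real.log p / (p - 1) ≤ Real.log N + C := by
  obtain ⟨C1, h1⟩ := Pool.Agent.Helper256.KM.mertens_log
  obtain ⟨C2, h20, h2⟩ := Pool.Agent.Helper256.KM.Mert.sum_small_bound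
  have hC1 : 0 ≤ C1 := (abs_nonneg _).trans (h1 1 le_rfl)
  refine ⟨C1 + C2, by positivity, fun N hN => ?_⟩
  have h3 : ∑ p ∈ (Icc 1 N).filter Nat.Prime, Real.log p / (p - 1) =
      ∑ p ∈ (Icc 1 N).filter Nat.Prime, Real.log p / p +
      ∑ p ∈ (Icc 1 N).filter Nat.Prime, Real.log p / (p * (p - 1)) := by
    rw [← Finset.sum_add_distrib]
    refine Finset.sum_congr rfl fun p hp => ?_
    have hp1 : (1 : ℝ) < p := by exact_mod_cast (Finset.mem_filter.1 hp).2.one_lt
    have h4 : (p : ℝ) - 1 ≠ 0 := by linarith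
    have h5 : (p : ℝ) ≠ 0 := by linarith
    field_simp
    ring
  rw [h3]
  have h4 := (abs_le.1 (h1 N hN)).2
  have h5 := h2 N
  linarith

theorem sum_log_le {d : ℕ} (hd : 0 < d) : ∑ p ∈ d.primeFactors, Real.log p ≤ Real.log d := by
  have h1 : ∏ p ∈ d.primeFactors, p ≤ d := Nat.le_of_dvd hd (Nat.prod_primeFactors_dvd d)
  have h2 : (∏ p ∈ d.primeFactors, (p : ℝ)) ≤ d := by
    have h3 : ((∏ p ∈ d.primeFactors, p : ℕ) : ℝ) ≤ d := Nat.cast_le.2 h1
    rwa [Nat.cast_prod] at h3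
  rw [← Real.log_prod]
  · refine Real.log_le_log (Finset.prod_pos fun p hp => ?_) h2
    exact_mod_cast (Nat.prime_of_mem_primeFactors hp).pos
  · intro p hp
    exact_mod_cast (Nat.prime_of_mem_primeFactors hp).ne_zero

/-- the primes dividing `d` -/
theorem kap_le : ∃ C : ℝ, 0 < C ∧ ∀ d : ℕ, 0 < d →
    Real.exp (kap d) ≤ C * (1 + Real.log d) := by
  classical
  obtain ⟨C, hC0, hC⟩ := mertens'
  refine ⟨2 * Real.exp (C + 1), by positivity, fun d hd => ?_⟩
  have hlog : 0 ≤ Real.log d := Real.log_natCast_nonneg d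
  set Y : ℕ := ⌈Real.log d⌉₊ + 1 with hY
  have hY1 : 1 ≤ Y := by omega
  have hYr : (1 : ℝ) ≤ Y := by exact_mod_cast hY1
  have hY2 : Real.log d ≤ Y := by
    have := Nat.le_ceil (Real.log d)
    rw [hY]; push_cast; linarith
  have hY3 : (Y : ℝ) ≤ 2 * (1 + Real.log d) := by
    have := Nat.ceil_lt_add_one hlog
    rw [hY]; push_cast; linarith
  have h1 : ∑ p ∈ d.primeFactors.filter (fun p => p ≤ Y), Real.log p / ((p : ℝ) - 1) ≤
      Real.log Y + C := by
    refine le_trans ?_ (hC Y hY1)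
    refine Finset.sum_le_sum_of_subset_of_nonneg ?_ ?_
    · intro p hp
      rw [mem_filter] at hp
      have hpp := Nat.prime_of_mem_primeFactors hp.1
      rw [mem_filter, mem_Icc]
      exact ⟨⟨hpp.one_lt.le, hp.2⟩, hpp⟩
    · intro p hp _
      have h1 : 1 ≤ (p : ℝ) := by exact_mod_cast (mem_filter.1 hp).2.one_lt.le
      exact div_nonneg (Real.log_nonneg h1) (by linarith)
  have h2 : ∑ p ∈ d.primeFactors.filter (fun p => ¬ p ≤ Y), Real.log p / ((p : ℝ) - 1) ≤ 1 := by
    have h3 : ∀ p ∈ d.primeFactors.filter (fun p => ¬ p ≤ Y), Real.log p / ((p : ℝ) - 1) ≤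
        Real.log p / Y := by
      intro p hp
      rw [mem_filter, not_le] at hp
      have hp1 : (Y : ℝ) + 1 ≤ p := by exact_mod_cast hp.2
      refine div_le_div_of_nonneg_left (Real.log_natCast_nonneg p) (by linarith) (by linarith)
    refine (Finset.sum_le_sum h3).trans ?_
    have h4 : ∑ p ∈ d.primeFactors.filter (fun p => ¬ p ≤ Y), Real.log p / Y ≤
        ∑ p ∈ d.primeFactors, Real.log p / Y := by
      refine Finset.sum_le_sum_of_subset_of_nonneg (filter_subset _ _) fun p _ _ => ?_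
      exact div_nonneg (Real.log_natCast_nonneg p) (by linarith)
    refine h4.trans ?_
    rw [← Finset.sum_div, div_le_one (by linarith)]
    exact (sum_log_le hd).trans hY2
  have h3 : kap d ≤ Real.log Y + C + 1 := by
    rw [kap, ← Finset.sum_filter_add_sum_filter_not _ (fun p => p ≤ Y)]
    linarith
  calc Real.exp (kap d) ≤ Real.exp (Real.log Y + C + 1) := Real.exp_le_exp.2 h3
    _ = Y * Real.exp (C + 1) := by
        rw [add_assoc, Real.exp_add, Real.exp_log (by linarith)]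
    _ ≤ 2 * (1 + Real.log d) * Real.exp (C + 1) :=
        mul_le_mul_of_nonneg_right hY3 (Real.exp_pos _).le
    _ = _ := by ring

end Pool.Agent.U429.VV
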