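import Pool.Agent.N17.HC.LSP

/-!
# Auxiliary polynomials by the pigeonhole principle

A polynomial of degree less than `D` with small coefficients whose values at all integers are
divisible by `M`.
-/

set_option autoImplicit false

open Polynomial Finset

namespace Pool.Agent.U429.VV

/-- Newton's expansion with integral coefficients -/
theorem newton_int (D : ℕ) (H : ℤ[X]) (hH : H.degree < D) :
    ∃ c : ℕ → ℤ, H = ∑ k ∈ range D, C (c k) * descPochhammer ℤ k := by
  induction D generalizing H with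
  | zero =>
    have h0 : H = 0 := by
      rw [Nat.cast_zero] at hH
      exact degree_eq_bot.1 (Nat.WithBot.lt_zero_iff.1 hH)
    exact ⟨0, by simp [h0]⟩
  | succ D ih =>
    have h1 : (H - C (H.coeff D) * descPochhammer ℤ D).degree < D := by
      rw [degree_lt_iff_coeff_zero]
      intro m hm
      rw [coeff_sub, coeff_C_mul]
      rcases eq_or_lt_of_le hm with h | h
      · subst h
        have h2 : (descPochhammer ℤ D).coeff D = 1 := by
          have := (monic_descPochhammer ℤ D).coeff_natDegree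
          rwa [descPochhammer_natDegree] at this
        rw [h2]
        ring
      · have h2 : (descPochhammer ℤ D).coeff m = 0 :=
          coeff_eq_zero_of_natDegree_lt (by rw [descPochhammer_natDegree]; exact h)
        rw [h2, coeff_eq_zero_of_degree_lt (lt_of_lt_of_le hH (by exact_mod_cast h))]
        ring
    obtain ⟨c, hc⟩ := ih _ h1
    refine ⟨fun k => if k = D then H.coeff D else c k, ?_⟩
    rw [sum_range_succ]
    simp only [if_true]
    have h3 : ∑ k ∈ range D, C (if k = D then H.coeff D else c k) * descPochhammer ℤ k =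
        ∑ k ∈ range D, C (c k) * descPochhammer ℤ k := by
      refine sum_congr rfl fun k hk => ?_
      rw [mem_range] at hk
      rw [if_neg hk.ne]
    rw [h3, ← hc]
    ring

theorem factorial_dvd (k : ℕ) (x : ℤ) : (k.factorial : ℤ) ∣ (descPochhammer ℤ k).eval x := by
  have h := Ring.descPochhammer_eq_factorial_smul_choose x k
  rw [← Polynomial.aeval_eq_smeval, Polynomial.coe_aeval_eq_eval, nsmul_eq_mul] at h
  exact ⟨_, h⟩

theorem pigeon (D M : ℕ) (hM : 0 < M) (hD : 0 < D) (T R : ℝ) (hR : 0 < R) (hT : 0 < T)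
    (h : ∏ k ∈ range D, ((M / Nat.gcd M k.factorial : ℕ) : ℝ) ≤
      ∏ j ∈ range D, (M * T / R ^ j)) :
    ∃ H : ℤ[X], H ≠ 0 ∧ H.natDegree < D ∧ (∀ j, |(H.coeff j : ℝ)| ≤ M * T / R ^ j) ∧
      ∀ x : ℤ, (M : ℤ) ∣ H.eval x := by
  classical
  set b : ℕ → ℕ := fun j => ⌊M * T / R ^ j⌋₊ with hb
  set m : ℕ → ℕ := fun k => M / Nat.gcd M k.factorial with hm
  have hm0 : ∀ k, 0 < m k := fun k =>
    Nat.div_pos (Nat.le_of_dvd hM (Nat.gcd_dvd_left _ _)) (Nat.gcd_pos_of_pos_left _ hM)
  have : ∀ k : Fin D, NeZero (m k) := fun k => ⟨(hm0 k).ne'⟩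
  have hpos : ∀ j, 0 < M * T / R ^ j := fun j => by
    have : (0 : ℝ) < M := by exact_mod_cast hM
    positivity
  -- the polynomial of a vector
  set P : ((j : Fin D) → Fin (b j + 1)) → ℤ[X] := fun h =>
    ∑ j : Fin D, C ((h j : ℕ) : ℤ) * X ^ (j : ℕ) with hP
  have hcoeff : ∀ h (j : Fin D), (P h).coeff j = ((h j : ℕ) : ℤ) := by
    intro h j
    rw [hP]
    simp only [finsetSum_coeff, coeff_C_mul, coeff_X_pow]
    rw [Finset.sum_eq_single j]
    · simp
    · intro i _ hij
      rw [if_neg]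
      · simp
      · intro h'
        exact hij (Fin.ext h'.symm)
    · intro h'
      exact absurd (mem_univ j) h'
  have hdeg : ∀ h, (P h).degree < D := by
    intro h
    rw [degree_lt_iff_coeff_zero]
    intro i hi
    rw [hP]
    simp only [finsetSum_coeff, coeff_C_mul, coeff_X_pow]
    refine Finset.sum_eq_zero fun j _ => ?_
    rw [if_neg]
    · simp
    · intro h'
      have := j.2
      omega
  have hexp : ∀ h, ∃ c : ℕ → ℤ, P h = ∑ k ∈ range D, C (c k) * descPochhammer ℤ k := fun h =>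
    newton_int D (P h) (hdeg h)
  choose c hc using hexp
  set f : ((j : Fin D) → Fin (b j + 1)) → ((k : Fin D) → ZMod (m k)) := fun h k =>
    ((c h k : ℤ) : ZMod (m k)) with hf
  have hcard : Fintype.card ((k : Fin D) → ZMod (m k)) <
      Fintype.card ((j : Fin D) → Fin (b j + 1)) := by
    rw [Fintype.card_pi, Fintype.card_pi]
    simp only [ZMod.card, Fintype.card_fin]
    rw [Fin.prod_univ_eq_prod_range (fun k => m k), Fin.prod_univ_eq_prod_range (fun j => b j + 1)]
    have h1 : ∏ j ∈ range D, (M * T / R ^ j) < ∏ j ∈ range D, (((b j + 1 : ℕ)) : ℝ) := by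
      refine Finset.prod_lt_prod_of_nonempty (fun j _ => hpos j) (fun j _ => ?_)
        ⟨0, mem_range.2 hD⟩
      push_cast
      exact Nat.lt_floor_add_one _
    have h2 := h.trans_lt h1
    rw [← Nat.cast_prod, ← Nat.cast_prod] at h2
    exact_mod_cast h2
  obtain ⟨h1, h2, hne, heq⟩ := Fintype.exists_ne_map_eq_of_card_lt f hcard
  have hj : ∃ j : Fin D, h1 j ≠ h2 j := by
    by_contra hcon
    push Not at hcon
    exact hne (funext hcon)
  obtain ⟨j₀, hj₀⟩ := hj
  refine ⟨P h1 - P h2, ?_, ?_, ?_, ?_⟩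
  · intro h0
    have h3 : (P h1 - P h2).coeff j₀ = 0 := by rw [h0, coeff_zero]
    rw [coeff_sub, hcoeff, hcoeff] at h3
    apply hj₀
    apply Fin.ext
    omega
  · have h3 : (P h1 - P h2).degree < D :=
      lt_of_le_of_lt (degree_sub_le _ _) (max_lt (hdeg h1) (hdeg h2))
    have h4 : P h1 - P h2 ≠ 0 := by
      intro h0
      have h3 : (P h1 - P h2).coeff j₀ = 0 := by rw [h0, coeff_zero]
      rw [coeff_sub, hcoeff, hcoeff] at h3
      apply hj₀
      apply Fin.ext
      omega
    rwa [natDegree_lt_iff_degree_lt h4]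
  · intro j
    by_cases hjD : j < D
    · have e1 := hcoeff h1 ⟨j, hjD⟩
      have e2 := hcoeff h2 ⟨j, hjD⟩
      simp only at e1 e2
      rw [coeff_sub, e1, e2]
      have b1 : (h1 ⟨j, hjD⟩ : ℕ) ≤ b j := Nat.lt_succ_iff.1 (h1 ⟨j, hjD⟩).2
      have b2 : (h2 ⟨j, hjD⟩ : ℕ) ≤ b j := Nat.lt_succ_iff.1 (h2 ⟨j, hjD⟩).2
      have b3 : |(((h1 ⟨j, hjD⟩ : ℕ) : ℤ) - ((h2 ⟨j, hjD⟩ : ℕ) : ℤ))| ≤ b j := by
        rw [abs_le]
        constructor <;> omega
      have b4 : |((((h1 ⟨j, hjD⟩ : ℕ) : ℤ) - ((h2 ⟨j, hjD⟩ : ℕ) : ℤ) : ℤ) : ℝ)| ≤ (b j : ℝ) := by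
        rw [← Int.cast_abs]
        exact_mod_cast b3
      exact b4.trans (Nat.floor_le (hpos j).le)
    · have e1 : (P h1 - P h2).coeff j = 0 := by
        apply coeff_eq_zero_of_degree_lt
        refine lt_of_lt_of_le (lt_of_le_of_lt (degree_sub_le _ _) (max_lt (hdeg h1) (hdeg h2))) ?_
        exact_mod_cast not_lt.1 hjD
      rw [e1]
      simp only [Int.cast_zero, abs_zero]
      exact (hpos j).le
  · intro x
    rw [hc h1, hc h2, ← Finset.sum_sub_distrib, eval_finsetSum]
    refine Finset.dvd_sum fun k hk => ?_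
    rw [mem_range] at hk
    rw [← sub_mul, ← C_sub, eval_mul, eval_C]
    have h3 := congrFun heq ⟨k, hk⟩
    simp only [hf] at h3
    rw [ZMod.intCast_eq_intCast_iff_dvd_sub] at h3
    have h4 : ((m k : ℕ) : ℤ) ∣ c h1 k - c h2 k := by
      obtain ⟨z, hz⟩ := h3
      exact ⟨-z, by linear_combination -hz⟩
    have h5 : (M : ℤ) ∣ (m k : ℤ) * (k.factorial : ℤ) := by
      have h6 : M ∣ m k * k.factorial := by
        obtain ⟨u, hu⟩ := Nat.gcd_dvd_right M k.factorial
        refine ⟨u, ?_⟩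
        have h7 : m k * Nat.gcd M k.factorial = M :=
          Nat.div_mul_cancel (Nat.gcd_dvd_left _ _)
        calc m k * k.factorial = m k * (Nat.gcd M k.factorial * u) := by rw [← hu]
          _ = M * u := by rw [← mul_assoc, h7]
      exact_mod_cast h6
    exact h5.trans (mul_dvd_mul h4 (factorial_dvd k x))

end Pool.Agent.U429.VV
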