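import Pool.Agent.U429.VV.Pig

/-!
# Zeros of the auxiliary polynomial at the points `a β + b`
-/

set_option autoImplicit false

open Polynomial Finset

namespace Pool.Agent.U429.VV

open Pool.Agent.N17.HC
open Pool.Agent.R920.CH (IsIntegerValued sum_roots core_pow)

theorem norm_sum_le (s : Multiset ℂ) (g : ℂ → ℂ) (B : ℝ) (hB : ∀ y ∈ s, ‖g y‖ ≤ B) :
    ‖(s.map g).sum‖ ≤ Multiset.card s * B := by
  induction s using Multiset.induction_on with
  | empty => simp
  | cons a s ih =>
    rw [Multiset.map_cons, Multiset.sum_cons, Multiset.card_cons]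
    have h1 := ih fun y hy => hB y (Multiset.mem_cons_of_mem hy)
    have h2 := hB a (Multiset.mem_cons_self a s)
    refine (norm_add_le _ _).trans ?_
    push_cast
    linarith

theorem norm_aeval_le (H : ℤ[X]) (D : ℕ) (hH : H.natDegree < D) (K R : ℝ) (hR : 0 < R)
    (hco : ∀ j, |(H.coeff j : ℝ)| ≤ K / R ^ j) (x : ℂ) (hx : ‖x‖ ≤ R) :
    ‖aeval x H‖ ≤ D * K := by
  rw [aeval_eq_sum_range' hH]
  refine (norm_sum_le_of_le (s := range D) (f := fun i => H.coeff i • x ^ i) (n := fun _ => K)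
    fun j _ => ?_).trans ?_
  · rw [zsmul_eq_mul, norm_mul, norm_pow, Complex.norm_intCast]
    calc |(H.coeff j : ℝ)| * ‖x‖ ^ j ≤ K / R ^ j * R ^ j := by
          refine mul_le_mul (hco j) (pow_le_pow_left₀ (norm_nonneg _) hx j) (by positivity) ?_
          exact (abs_nonneg _).trans (hco j)
      _ = K := by field_simp
  · rw [sum_const, card_range, nsmul_eq_mul]

theorem int_root (P : ℤ[X]) (hP : P.Monic) (β : ℂ) (hβ : β ∈ rootsOf P) (q : ℚ)
    (hq : β = (q : ℂ)) : ∃ a : ℤ, β = a := by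
  have h1 : aeval β P = 0 := by
    have := (Polynomial.mem_roots (hP.map (Int.castRingHom ℂ)).ne_zero).1 hβ
    rw [Polynomial.IsRoot.def, eval_map] at this
    rw [aeval_def]
    exact this
  have h2 : IsIntegral ℤ β := ⟨P, hP, by rw [← aeval_def]; exact h1⟩
  have h3 : IsIntegral ℤ q := by
    have h4 : IsIntegral ℤ (algebraMap ℚ ℂ q) := by
      have : (algebraMap ℚ ℂ q) = β := by rw [hq]; rfl
      rw [this]
      exact h2
    exact (isIntegral_algebraMap_iff (algebraMap ℚ ℂ).injective).1 h4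
  obtain ⟨a, ha⟩ := IsIntegrallyClosed.isIntegral_iff.1 h3
  refine ⟨a, ?_⟩
  rw [hq, ← ha]
  simp

theorem vanish (n r D M : ℕ) (P : ℤ[X]) (hP : P.Monic) (hr : P.natDegree = r)
    (c : ℤ) (hM : 0 < M) (hcM : IsCoprime (M : ℤ) c)
    (hint : ∀ f : ℚ[X], IsIntegerValued f → f.natDegree ≤ n →
      ∃ z : ℤ, (c : ℂ) * ((rootsOf P).map fun b => aeval b f).sum = z)
    (B R T : ℝ) (hB : 1 ≤ B) (hroots : ∀ β ∈ rootsOf P, ‖β‖ ≤ B) (hDn : D + r ≤ n + 2)
    (H : ℤ[X]) (hHD : H.natDegree < D) (hR : 0 < R)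
    (hco : ∀ j, |(H.coeff j : ℝ)| ≤ M * T / R ^ j) (hdiv : ∀ x : ℤ, (M : ℤ) ∣ H.eval x)
    (hsmall : r * (D * T * B ^ r) < 1) (a b : ℤ)
    (hab : ∀ β ∈ rootsOf P, ‖(a : ℂ) * β + b‖ ≤ R) :
    ∀ β ∈ rootsOf P, aeval ((a : ℂ) * β + b) H = 0 := by
  classical
  have hM' : (0 : ℝ) < M := by exact_mod_cast hM
  have hMC : (M : ℂ) ≠ 0 := by exact_mod_cast hM.ne'
  have hcard : Multiset.card (rootsOf P) = r := by
    rw [rootsOf, splits_iff_card_roots.1 (IsAlgClosed.splits _), hP.natDegree_map, hr]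
  apply core_pow (rootsOf P) (fun y => aeval ((a : ℂ) * y + b) H)
  · intro y hy _ h0
    have h1 := Multiset.count_pos.2 hy
    have h2 : (rootsOf P).count y = 0 := by exact_mod_cast h0
    omega
  · intro t ht
    rw [hcard] at ht
    set g : ℤ[X] := H.comp (C a * X + C b) * X ^ t with hg
    have hval : ∀ y : ℂ, aeval y g = aeval ((a : ℂ) * y + b) H * y ^ t := by
      intro y
      rw [hg, map_mul, aeval_comp, map_pow, aeval_X, map_add, map_mul, aeval_X, aeval_C, aeval_C]
      simp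
    obtain ⟨m, hm⟩ := sum_roots P g hP
    have hmC := hm ℂ
    simp only [hval] at hmC
    set f : ℚ[X] := C ((M : ℚ)⁻¹) * g.map (Int.castRingHom ℚ) with hf
    have hMQ : (M : ℚ) ≠ 0 := by exact_mod_cast hM.ne'
    have hfi : IsIntegerValued f := by
      intro x
      obtain ⟨u, hu⟩ := hdiv (a * x + b)
      refine ⟨u * x ^ t, ?_⟩
      rw [hf, eval_mul, eval_C, eval_intCast_map, hg, eval_mul, eval_comp, eval_add, eval_mul,
        eval_C, eval_X, eval_C, eval_pow, eval_X, Int.cast_id, hu, eq_intCast]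
      push_cast
      field_simp
    have hfd : f.natDegree ≤ n := by
      rw [hf]
      refine (natDegree_C_mul_le _ _).trans (natDegree_map_le.trans ?_)
      rw [hg]
      refine natDegree_mul_le.trans ?_
      have h1 : (H.comp (C a * X + C b)).natDegree ≤ H.natDegree := by
        refine natDegree_comp_le.trans ?_
        have : (C a * X + C b : ℤ[X]).natDegree ≤ 1 := natDegree_linear_le
        calc H.natDegree * (C a * X + C b : ℤ[X]).natDegree ≤ H.natDegree * 1 :=
              Nat.mul_le_mul_left _ this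
          _ = H.natDegree := mul_one _
      have h2 : (X ^ t : ℤ[X]).natDegree ≤ t := by rw [natDegree_X_pow]
      omega
    obtain ⟨z, hz⟩ := hint f hfi hfd
    have h1 : ((rootsOf P).map fun x => aeval x f).sum = (M : ℂ)⁻¹ * (m : ℂ) := by
      rw [← hmC, ← Multiset.sum_map_mul_left]
      congr 1
      refine Multiset.map_congr rfl fun x _ => ?_
      rw [← hval, hf, map_mul, aeval_C]
      congr 1
      · simp
      · rw [aeval_def, aeval_def, eval₂_map]
        exact congrArg (fun φ : ℤ →+* ℂ => eval₂ φ x g) (RingHom.ext_int _ _)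
    rw [h1] at hz
    have h2 : c * m = M * z := by
      have h3 : (c : ℂ) * (m : ℂ) = M * z := by
        rw [← hz]
        field_simp
      exact_mod_cast h3
    have h4 : (M : ℤ) ∣ m := hcM.dvd_of_dvd_mul_left ⟨z, h2⟩
    obtain ⟨z', hz'⟩ := h4
    have h5 : ‖(m : ℂ)‖ ≤ r * (D * (M * T) * B ^ r) := by
      have hT : 0 ≤ (M : ℝ) * T := by
        have := (abs_nonneg _).trans (hco 0)
        simpa using this
      have h5' := norm_sum_le (rootsOf P) (fun y => aeval ((a : ℂ) * y + b) H * y ^ t)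
        (D * (M * T) * B ^ r) (fun y hy => by
          rw [norm_mul, norm_pow]
          have e1 := norm_aeval_le H D hHD (M * T) R hR hco _ (hab y hy)
          have e2 : ‖y‖ ^ t ≤ B ^ r :=
            (pow_le_pow_left₀ (norm_nonneg _) (hroots y hy) t).trans
              (pow_le_pow_right₀ hB ht.le)
          exact mul_le_mul e1 e2 (by positivity) (by positivity))
      rw [hcard] at h5'
      have h5'' : ((rootsOf P).map fun y => aeval ((a : ℂ) * y + b) H * y ^ t).sum = (m : ℂ) := hmC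
      rw [h5''] at h5'
      exact h5'
    rw [Complex.norm_intCast, hz'] at h5
    push_cast at h5
    rw [abs_mul, abs_of_pos hM'] at h5
    have h6 : |(z' : ℝ)| < 1 := by
      have h7 : (M : ℝ) * |(z' : ℝ)| ≤ M * (r * (D * T * B ^ r)) := by
        calc (M : ℝ) * |(z' : ℝ)| ≤ r * (D * (M * T) * B ^ r) := h5
          _ = M * (r * (D * T * B ^ r)) := by ring
      exact (le_of_mul_le_mul_left h7 hM').trans_lt hsmall
    have h8 : z' = 0 := by
      have : |z'| < 1 := by exact_mod_cast h6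
      exact Int.abs_lt_one_iff.1 this
    have h9 : ((rootsOf P).map fun y => aeval ((a : ℂ) * y + b) H * y ^ t).sum = (m : ℂ) := hmC
    refine h9.trans ?_
    rw [hz', h8]
    simp

/-- the contradiction -/
theorem integral_roots (n r D M : ℕ) (P : ℤ[X]) (hP : P.Monic) (hr : P.natDegree = r)
    (c : ℤ) (hM : 0 < M) (hcM : IsCoprime (M : ℤ) c)
    (hint : ∀ f : ℚ[X], IsIntegerValued f → f.natDegree ≤ n →
      ∃ z : ℤ, (c : ℂ) * ((rootsOf P).map fun b => aeval b f).sum = z)
    (B R T : ℝ) (hB : 1 ≤ B) (hroots : ∀ β ∈ rootsOf P, ‖β‖ ≤ B) (hDn : D + r ≤ n + 2)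
    (H : ℤ[X]) (hH : H ≠ 0) (hHD : H.natDegree < D) (hR : 0 < R)
    (hco : ∀ j, |(H.coeff j : ℝ)| ≤ M * T / R ^ j) (hdiv : ∀ x : ℤ, (M : ℤ) ∣ H.eval x)
    (hsmall : r * (D * T * B ^ r) < 1) (A₀ B₀ : ℕ) (hAB : A₀ * B + B₀ ≤ R)
    (hD : D ≤ A₀ * B₀) : ∀ β ∈ rootsOf P, ∃ a : ℤ, β = a := by
  classical
  intro β hβ
  by_contra hcon
  have hv : ∀ a b : ℕ, a < A₀ → b < B₀ → aeval ((a : ℂ) * β + b) H = 0 := by
    intro a b ha hb
    have h1 := vanish n r D M P hP hr c hM hcM hint B R T hB hroots hDn H hHD hR hco hdiv hsmall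
      a b (fun γ hγ => by
        refine (norm_add_le _ _).trans ?_
        rw [norm_mul]
        have e1 : ‖((a : ℤ) : ℂ)‖ ≤ A₀ := by
          rw [Int.cast_natCast, Complex.norm_natCast]
          exact_mod_cast ha.le
        have e2 : ‖((b : ℤ) : ℂ)‖ ≤ B₀ := by
          rw [Int.cast_natCast, Complex.norm_natCast]
          exact_mod_cast hb.le
        have e3 : ‖((a : ℤ) : ℂ)‖ * ‖γ‖ ≤ A₀ * B :=
          mul_le_mul e1 (hroots γ hγ) (norm_nonneg _) (Nat.cast_nonneg _)
        linarith) β hβ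
    simpa using h1
  set φ : ℕ × ℕ → ℂ := fun x => (x.1 : ℂ) * β + x.2 with hφ
  have hinj : Set.InjOn φ ((range A₀ ×ˢ range B₀ : Finset (ℕ × ℕ)) : Set (ℕ × ℕ)) := by
    rintro ⟨a, b⟩ _ ⟨a', b'⟩ _ h
    simp only [hφ] at h
    by_cases haa : a = a'
    · subst haa
      have : (b : ℂ) = b' := by linear_combination h
      have : b = b' := by exact_mod_cast this
      rw [this]
    · exfalso
      apply hcon
      have hne : ((a : ℚ) - a') ≠ 0 := sub_ne_zero.2 (by exact_mod_cast haa)
      apply int_root P hP β hβ (((b' : ℚ) - b) / ((a : ℚ) - a'))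
      have hneC : ((a : ℂ) - a') ≠ 0 := sub_ne_zero.2 (by exact_mod_cast haa)
      push_cast
      rw [eq_div_iff hneC]
      linear_combination h
  have hH' : H.map (Int.castRingHom ℂ) ≠ 0 := by
    rw [Ne, Polynomial.map_eq_zero_iff (RingHom.injective_int _)]
    exact hH
  have hsub : (range A₀ ×ˢ range B₀).image φ ⊆ (H.map (Int.castRingHom ℂ)).roots.toFinset := by
    intro x hx
    rw [mem_image] at hx
    obtain ⟨⟨a, b⟩, hab, rfl⟩ := hx
    rw [mem_product, mem_range, mem_range] at hab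
    rw [Multiset.mem_toFinset, Polynomial.mem_roots hH', Polynomial.IsRoot.def, eval_map]
    have := hv a b hab.1 hab.2
    rw [aeval_def] at this
    exact this
  have h1 := card_le_card hsub
  rw [card_image_of_injOn hinj, card_product, card_range, card_range] at h1
  have h2 := Multiset.toFinset_card_le (H.map (Int.castRingHom ℂ)).roots
  have h3 := Polynomial.card_roots' (H.map (Int.castRingHom ℂ))
  have h4 : (H.map (Int.castRingHom ℂ)).natDegree ≤ H.natDegree := natDegree_map_le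
  omega

end Pool.Agent.U429.VV
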